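import Pool.Agent.Lib.MP_dd4ef3_lc.BE.Final

set_option autoImplicit false

namespace Pool.Agent.Variants.MP_dd4ef3_lc.BollobasErdosSym

open Pool.Agent.PCHam

/-- The Bollobás–Erdős conjecture for large `n`: if every vertex of an edge-coloured `K_n` meets
fewer than `⌊n/2⌋` edges of each colour, there is a properly coloured Hamilton cycle. -/
theorem result :
    ∃ n₀ : ℕ, ∀ n : ℕ, n₀ ≤ n → ∀ (C : Type) (col : Sym2 (Fin n) → C),
      (∀ (v : Fin n) (a : C), Set.ncard {w : Fin n | w ≠ v ∧ col s(v, w) = a} < n / 2) →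
        HasPCHamiltonCycle col :=
  Pool.Agent.BE.bollobas_erdos

end Pool.Agent.Variants.MP_dd4ef3_lc.BollobasErdosSym
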